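import Mathlib
import Pool.Agent.X72.RetrDefs

/-! The retractions of a complete lattice form a complete lattice. -/

namespace Pool.Agent.Results.MP_31821e_co.CompleteCase

open Pool.Agent.X72.RetrDefs

theorem exists_lub {L : Type*} [CompleteLattice L] (R : Set (Retr L)) : ∃ g, IsLUB R g := by
  -- the monotone maps above `R` with `u ∘ u ≤ u`
  let U : Set (L →o L) := {u | (∀ r ∈ R, r.val ≤ u) ∧ ∀ x, u (u x) ≤ u x}
  let g : L →o L := sInf U
  have hgle : ∀ u ∈ U, g ≤ u := fun u hu => sInf_le hu
  have hRg : ∀ r ∈ R, r.val ≤ g := fun r hr => le_sInf fun u hu => hu.1 r hr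
  have hgg : ∀ x, g (g x) ≤ g x := by
    intro x
    have h1 : g x = ⨅ u ∈ U, u x := by
      exact OrderHom.sInf_apply U x
    have h2 : ∀ u ∈ U, g (g x) ≤ u x := fun u hu =>
      (hgle u hu (g x)).trans ((u.monotone (hgle u hu x)).trans (hu.2 x))
    conv_rhs => rw [h1]
    exact le_iInf₂ h2
  -- `g ∘ g` is again in the set
  let g2 : L →o L := g.comp g
  have hg2 : g2 ∈ U := by
    refine ⟨fun r hr x => ?_, fun x => ?_⟩
    · show r.val x ≤ g (g x)
      rw [← r.2 x]
      exact (hRg r hr _).trans (g.monotone (hRg r hr x))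
    · show g (g (g (g x))) ≤ g (g x)
      exact g.monotone ((g.monotone (hgg x)).trans (hgg x)) |>.trans (le_refl _)
  have hidem : ∀ x, g (g x) = g x := fun x => le_antisymm (hgg x) (hgle g2 hg2 x)
  refine ⟨⟨g, hidem⟩, ?_, ?_⟩
  · intro r hr
    exact hRg r hr
  · intro s hs
    exact hgle s.val ⟨fun r hr => hs hr, fun x => (s.2 x).le⟩

/-- For every complete lattice `L`, every set of retractions of `L` has a least upper bound and a
greatest lower bound in the poset of retractions. -/
theorem result (L : Type*) [CompleteLattice L] (R : Set (Retr L)) :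
    (∃ g, IsLUB R g) ∧ (∃ g, IsGLB R g) := by
  refine ⟨exists_lub R, ?_⟩
  obtain ⟨g, hg⟩ := exists_lub (lowerBounds R)
  exact ⟨g, isLUB_lowerBounds.mp hg⟩

end Pool.Agent.Results.MP_31821e_co.CompleteCase
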