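import Mathlib
import Pool.Agent.X72.RetrDefs

/-! Two retractions of a bounded chain without a least upper bound. -/

namespace Pool.Agent.Results.MP_31821e_co.NoSupremum

open Pool.Agent.X72.RetrDefs

/-- the underlying set of the chain `ω + ω*` -/
inductive C : Type
  | lo : ℕ → C
  | hi : ℕ → C

/-- its order -/
def C.le : C → C → Prop
  | .lo a, .lo b => a ≤ b
  | .lo _, .hi _ => True
  | .hi _, .lo _ => False
  | .hi a, .hi b => b ≤ a

noncomputable instance : LinearOrder C where
  le := C.le
  le_refl x := by cases x <;> simp [C.le]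
  le_trans x y z := by
    cases x <;> cases y <;> cases z <;> simp only [C.le] <;> intros <;> first | trivial | omega
  le_antisymm x y := by
    cases x <;> cases y <;> simp only [C.le, C.lo.injEq, C.hi.injEq] <;> intros <;>
      first | trivial | omega
  le_total x y := by
    cases x <;> cases y <;> simp only [C.le, true_or, or_true] <;> omega
  toDecidableLE := Classical.decRel _

noncomputable instance : BoundedOrder C where
  bot := .lo 0
  bot_le x := by
    show C.le (.lo 0) x
    cases x <;> simp [C.le]
  top := .hi 0
  le_top x := by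
    show C.le x (.hi 0)
    cases x <;> simp [C.le]

/-- round up to a number with the parity of `e` on the lower part -/
def up (e : ℕ) : C → C
  | .lo n => .lo (n + (n + e) % 2)
  | .hi m => .hi m

theorem up_mono (e : ℕ) (x y : C) (hxy : C.le x y) : C.le (up e x) (up e y) := by
  cases x <;> cases y <;> simp only [C.le, up] at hxy ⊢ <;> first | trivial | omega

theorem up_up (e : ℕ) (x : C) : up e (up e x) = up e x := by
  cases x with
  | lo n => simp only [up, C.lo.injEq]; omega
  | hi m => rfl

/-- the two retractions -/
noncomputable def R (e : ℕ) : Retr C := ⟨⟨up e, fun x y h => up_mono e x y h⟩, up_up e⟩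

/-- the map `x ↦ max x c` for `c` in the upper part -/
def mx (c : ℕ) : C → C
  | .lo _ => .hi c
  | .hi m => .hi (min m c)

theorem mx_mono (c : ℕ) (x y : C) (hxy : C.le x y) : C.le (mx c x) (mx c y) := by
  cases x <;> cases y <;> simp only [C.le, mx] at hxy ⊢ <;> first | trivial | omega

theorem mx_mx (c : ℕ) (x : C) : mx c (mx c x) = mx c x := by
  cases x <;> simp [mx]

/-- the upper bounds used -/
noncomputable def G (c : ℕ) : Retr C := ⟨⟨mx c, fun x y h => mx_mono c x y h⟩, mx_mx c⟩

theorem up_le_mx (e c : ℕ) (x : C) : C.le (up e x) (mx c x) := by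
  cases x <;> simp only [up, mx, C.le]
  exact min_le_left _ _

theorem upper (e : ℕ) (c : ℕ) : R e ≤ G c := fun x => up_le_mx e c x

/-- There is a bounded chain with two retractions that have no least upper bound in the poset of
retractions. -/
theorem result : ∃ (L : Type) (_ : LinearOrder L) (_ : BoundedOrder L) (r s : Retr L),
    ¬ ∃ g : Retr L, IsLUB {r, s} g := by
  refine ⟨C, inferInstance, inferInstance, R 0, R 1, ?_⟩
  rintro ⟨g, hg⟩
  have h0 : R 0 ≤ g := hg.1 (by simp)
  have h1 : R 1 ≤ g := hg.1 (by simp)
  have hidem := g.2 (.lo 0)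
  cases hz : g.val (.lo 0) with
  | lo m =>
    rw [hz] at hidem
    have e0 : C.le (up 0 (.lo m)) (g.val (.lo m)) := h0 (.lo m)
    have e1 : C.le (up 1 (.lo m)) (g.val (.lo m)) := h1 (.lo m)
    rw [hidem] at e0 e1
    simp only [up, C.le] at e0 e1
    omega
  | hi c =>
    have hub : g ≤ G (c + 1) := hg.2 (by
      intro r hr
      rcases hr with rfl | hr
      · exact upper 0 (c + 1)
      · rw [Set.mem_singleton_iff] at hr
        subst hr
        exact upper 1 (c + 1))
    have h2 : C.le (g.val (.lo 0)) (mx (c + 1) (.lo 0)) := hub (.lo 0)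
    rw [hz] at h2
    simp only [mx, C.le] at h2
    omega

end Pool.Agent.Results.MP_31821e_co.NoSupremum
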